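import Pool.Agent.Q62.TR.Surf

set_option autoImplicit false

namespace Pool.Agent.Results.MP_81590e_gt.TorseBECP

open Q62.TR
open scoped Manifold

/-- Every `C¹`-smooth torse is a surface of bounded extrinsic curvature in the sense of Pogorelov;
its spherical image is locally of area zero. -/
theorem result {M : Type*} [TopologicalSpace M] [ChartedSpace E2 M]
    [IsManifold 𝓘(ℝ, E2) 1 M] (F : M → E3) (hF : IsImmersion F) (hT : IsTorse F) :
    NullSphericalImage F ∧ IsBECP F :=
  ⟨null_of_torse hF hT, becp_of_null (null_of_torse hF hT)⟩

end Pool.Agent.Results.MP_81590e_gt.TorseBECP
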